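import Pool.Agent.K1H88.DP.Stm

/-! # Norms at the unramified primes (piece `S_UNR`) -/

set_option autoImplicit false

open Polynomial Module NumberField Pool.Agent.K1H88.DP

namespace Pool.Agent.K1H96.DP.Unr

section core

variable {K : Type} [NormedField K] [IsUltrametricDist K]

theorem aeval_le (θ : K) (hθ : ‖θ‖ ≤ 1) (g : ℤ[X]) : ‖aeval θ g‖ ≤ 1 := by
  induction g using Polynomial.induction_on' with
  | add a b ha hb =>
    rw [map_add]
    exact (IsUltrametricDist.norm_add_le_max _ _).trans (max_le ha hb)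
  | monomial n a =>
    rw [aeval_monomial, norm_mul, norm_pow]
    have h1 : ‖(algebraMap ℤ K) a‖ ≤ 1 := by
      have := IsUltrametricDist.norm_intCast_le_one K a
      simpa using this
    calc ‖(algebraMap ℤ K) a‖ * ‖θ‖ ^ n ≤ 1 * 1 :=
          mul_le_mul h1 (pow_le_one₀ (norm_nonneg _) hθ) (by positivity) zero_le_one
      _ = 1 := one_mul 1

/-- the polynomials with small values -/
def idl (θ : K) (hθ : ‖θ‖ ≤ 1) : Ideal ℤ[X] where
  carrier := {g | ‖aeval θ g‖ < 1}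
  add_mem' := fun {a b} ha hb => by
    show ‖aeval θ (a + b)‖ < 1
    rw [map_add]
    exact (IsUltrametricDist.norm_add_le_max _ _).trans_lt (max_lt ha hb)
  zero_mem' := by
    show ‖aeval θ (0 : ℤ[X])‖ < 1
    simp
  smul_mem' := fun c x hx => by
    show ‖aeval θ (c * x)‖ < 1
    rw [map_mul, norm_mul]
    have h1 := aeval_le θ hθ c
    have h2 : ‖aeval θ x‖ < 1 := hx
    have h3 := norm_nonneg (aeval θ c)
    have h4 := norm_nonneg (aeval θ x)
    nlinarith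

theorem mem_idl (θ : K) (hθ : ‖θ‖ ≤ 1) (g : ℤ[X]) : g ∈ idl θ hθ ↔ ‖aeval θ g‖ < 1 := Iff.rfl

theorem lift_p (p : ℕ) [Fact p.Prime] (g : ℤ[X])
    (h : g.map (Int.castRingHom (ZMod p)) = 0) : ∃ r : ℤ[X], g = C (p : ℤ) * r := by
  have h1 : C (p : ℤ) ∣ g := by
    rw [C_dvd_iff_dvd_coeff]
    intro i
    have h2 := congrArg (fun q : (ZMod p)[X] => q.coeff i) h
    simp only [coeff_map, coeff_zero] at h2
    exact (ZMod.intCast_zmod_eq_zero_iff_dvd _ p).1 h2
  exact h1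

theorem core (p : ℕ) [Fact p.Prime] (hpn : ‖((p : ℕ) : K)‖ = (p : ℝ)⁻¹) (θ : K) (hθ : ‖θ‖ ≤ 1)
    (f : ℤ[X]) (hf : aeval θ f = 0) (hsq : Squarefree (f.map (Int.castRingHom (ZMod p))))
    (g : ℤ[X]) (hg : aeval θ g ≠ 0) : ∃ m : ℕ, ‖aeval θ g‖ = ((p : ℝ)⁻¹) ^ m := by
  have hp : p.Prime := Fact.out
  have hp1 : (1 : ℝ) < p := by exact_mod_cast hp.one_lt
  have hp0 : (0 : ℝ) < p := by linarith
  have hpi : ((p : ℝ)⁻¹) < 1 := inv_lt_one_of_one_lt₀ hp1
  obtain ⟨φ, hφ⟩ : ∃ φ : ℤ[X] →+* (ZMod p)[X], φ = mapRingHom (Int.castRingHom (ZMod p)) :=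
    ⟨_, rfl⟩
  have hφ' : ∀ q : ℤ[X], φ q = q.map (Int.castRingHom (ZMod p)) := fun q => by rw [hφ]; rfl
  have hsurj : Function.Surjective φ := by
    intro q
    obtain ⟨r, hr⟩ := Polynomial.map_surjective (Int.castRingHom (ZMod p))
      (ZMod.intCast_surjective) q
    exact ⟨r, by rw [hφ']; exact hr⟩
  have hker : ∀ q, φ q = 0 → ∃ r : ℤ[X], q = C (p : ℤ) * r := fun q hq =>
    lift_p p q (by rw [← hφ']; exact hq)
  have hCp : ∀ r : ℤ[X], aeval θ (C (p : ℤ) * r) = (p : K) * aeval θ r := by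
    intro r
    rw [map_mul, aeval_C]
    simp
  obtain ⟨F0, hF0⟩ := (IsPrincipalIdealRing.principal ((idl θ hθ).map φ)).principal
  have hF0m : F0 ∈ (idl θ hθ).map φ := by
    rw [hF0]; exact Submodule.mem_span_singleton_self _
  obtain ⟨F1, hF1, hF1e⟩ := (Ideal.mem_map_iff_of_surjective φ hsurj).1 hF0m
  have key : ∀ G ∈ idl θ hθ, ∃ Q R : ℤ[X], G = F1 * Q + C (p : ℤ) * R := by
    intro G hG
    have h1 : φ G ∈ (idl θ hθ).map φ := Ideal.mem_map_of_mem _ hG
    rw [hF0] at h1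
    obtain ⟨q, hq⟩ := Ideal.mem_span_singleton'.1 h1
    obtain ⟨Q, hQ⟩ := hsurj q
    obtain ⟨R, hR⟩ := hker (G - F1 * Q) (by
      rw [map_sub, map_mul, hF1e, hQ, ← hq]; ring)
    exact ⟨Q, R, by rw [← hR]; ring⟩
  have hfI : f ∈ idl θ hθ := by
    rw [mem_idl, hf, norm_zero]; exact one_pos
  obtain ⟨H, W, hfe⟩ := key f hfI
  have hH : ‖aeval θ H‖ = 1 := by
    refine le_antisymm (aeval_le θ hθ H) (not_lt.1 fun hlt => ?_)
    obtain ⟨U, R, hU⟩ := key H hlt
    have h1 : φ f = F0 * F0 * φ U := by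
      rw [hfe, hU, map_add, map_mul, map_add, map_mul, hF1e, map_mul, map_mul]
      have h0 : φ (C (p : ℤ)) = 0 := by
        rw [hφ', map_C]
        simp
      rw [h0]
      ring
    have h2 : IsUnit F0 := by
      rw [hφ'] at h1
      exact hsq F0 ⟨_, h1⟩
    obtain ⟨v, hv⟩ := h2.exists_right_inv
    obtain ⟨V, hV⟩ := hsurj v
    obtain ⟨R', hR'⟩ := hker (F1 * V - 1) (by
      rw [map_sub, map_mul, hF1e, hV, hv, map_one, sub_self])
    have h3 : F1 * V ∈ idl θ hθ := Ideal.mul_mem_right _ _ hF1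
    rw [mem_idl] at h3
    have h4 : (1 : K) = aeval θ (F1 * V) - aeval θ (C (p : ℤ) * R') := by
      rw [← map_sub, ← hR']
      simp
    have h5 : ‖(1 : K)‖ ≤ max ‖aeval θ (F1 * V)‖ ‖aeval θ (C (p : ℤ) * R')‖ := by
      conv_lhs => rw [h4, sub_eq_add_neg]
      refine (IsUltrametricDist.norm_add_le_max _ _).trans (le_of_eq ?_)
      rw [norm_neg]
    rw [norm_one, hCp, norm_mul, hpn] at h5
    have h6 : (p : ℝ)⁻¹ * ‖aeval θ R'‖ < 1 := by
      have := aeval_le θ hθ R'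
      have h7 : 0 < (p : ℝ)⁻¹ := inv_pos.2 hp0
      nlinarith [norm_nonneg (aeval θ R')]
    exact absurd h5 (not_le.2 (max_lt h3 h6))
  have hFH : aeval θ F1 * aeval θ H = - ((p : K) * aeval θ W) := by
    have h1 := hf
    rw [hfe, map_add, map_mul, hCp] at h1
    linear_combination h1
  have step : ∀ G ∈ idl θ hθ, ∃ G1 : ℤ[X], ‖aeval θ G‖ = (p : ℝ)⁻¹ * ‖aeval θ G1‖ := by
    intro G hG
    obtain ⟨Q, R, hQ⟩ := key G hG
    refine ⟨R * H - W * Q, ?_⟩
    have h1 : aeval θ G * aeval θ H = (p : K) * aeval θ (R * H - W * Q) := by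
      rw [hQ, map_add, map_mul, hCp, map_sub, map_mul, map_mul]
      linear_combination aeval θ Q * hFH
    have h2 := congrArg norm h1
    rw [norm_mul, hH, mul_one, norm_mul, hpn] at h2
    exact h2
  have hn : ∀ n : ℕ, ∀ G : ℤ[X], ((p : ℝ)⁻¹) ^ n < ‖aeval θ G‖ →
      ∃ m : ℕ, ‖aeval θ G‖ = ((p : ℝ)⁻¹) ^ m := by
    intro n
    induction n with
    | zero =>
      intro G hG
      rw [pow_zero] at hG
      exact absurd (aeval_le θ hθ G) (not_le.2 hG)
    | succ n ih =>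
      intro G hG
      by_cases h1 : G ∈ idl θ hθ
      · obtain ⟨G1, hG1⟩ := step G h1
        have h2 : ((p : ℝ)⁻¹) ^ n < ‖aeval θ G1‖ := by
          rw [hG1, pow_succ, mul_comm] at hG
          exact lt_of_mul_lt_mul_left hG (inv_pos.2 hp0).le
        obtain ⟨m, hm⟩ := ih G1 h2
        exact ⟨m + 1, by rw [hG1, hm, pow_succ, mul_comm]⟩
      · rw [mem_idl, not_lt] at h1
        exact ⟨0, by rw [pow_zero]; exact le_antisymm (aeval_le θ hθ G) h1⟩
  obtain ⟨n, hn'⟩ := exists_pow_lt_of_lt_one (norm_pos_iff.2 hg) hpi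
  exact hn n g hn'

end core

theorem clear_den (g : ℚ[X]) : ∃ (D : ℤ) (G : ℤ[X]), D ≠ 0 ∧
    G.map (algebraMap ℤ ℚ) = (D : ℤ) • g := by
  obtain ⟨b, hb1, hb2⟩ := IsLocalization.integerNormalization_spec (nonZeroDivisors ℤ) g
  exact ⟨b, IsLocalization.integerNormalization (nonZeroDivisors ℤ) g,
    nonZeroDivisors.ne_zero hb1, hb2⟩

/-- a number `N` outside of which the reductions of `f` are squarefree -/
theorem sqf (f : ℤ[X]) (hf : (f.map (algebraMap ℤ ℚ)).Separable) : ∃ N : ℕ, N ≠ 0 ∧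
    ∀ p : ℕ, p.Prime → ¬ p ∣ N → Squarefree (f.map (Int.castRingHom (ZMod p))) := by
  obtain ⟨a, b, hab⟩ := hf
  obtain ⟨D, A, hD, hA⟩ := clear_den a
  obtain ⟨D', B, hD', hB⟩ := clear_den b
  have h1 : (C D' * A * f + C D * B * derivative f) = C (D * D') := by
    apply Polynomial.map_injective (algebraMap ℤ ℚ) (algebraMap ℤ ℚ).injective_int
    rw [Polynomial.map_add, Polynomial.map_mul, Polynomial.map_mul, Polynomial.map_mul,
      Polynomial.map_mul, hA, hB, map_C, map_C, map_C, ← Polynomial.derivative_map]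
    rw [map_mul (algebraMap ℤ ℚ), C_mul]
    have e1 : ∀ (D : ℤ) (q : ℚ[X]), D • q = C ((algebraMap ℤ ℚ) D) * q := by
      intro D q
      rw [← Polynomial.smul_eq_C_mul]
      ext i
      simp
    rw [e1, e1]
    linear_combination (C ((algebraMap ℤ ℚ) D) * C ((algebraMap ℤ ℚ) D')) * hab
  refine ⟨(D * D').natAbs, by simp [hD, hD'], fun p hp hpN => ?_⟩
  have : Fact p.Prime := ⟨hp⟩
  refine Polynomial.Separable.squarefree ?_
  have h2 := congrArg (Polynomial.map (Int.castRingHom (ZMod p))) h1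
  rw [Polynomial.map_add, Polynomial.map_mul, Polynomial.map_mul, Polynomial.map_mul,
      Polynomial.map_mul, map_C, map_C, map_C, ← Polynomial.derivative_map] at h2
  have h3 : (Int.castRingHom (ZMod p)) (D * D') ≠ 0 := by
    intro h0
    apply hpN
    have h4 : ((D * D' : ℤ) : ZMod p) = 0 := h0
    rw [ZMod.intCast_zmod_eq_zero_iff_dvd] at h4
    exact Int.natCast_dvd.1 h4
  obtain ⟨u, hu⟩ : ∃ u : ZMod p, u * (Int.castRingHom (ZMod p)) (D * D') = 1 :=
    ⟨_, inv_mul_cancel₀ h3⟩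
  refine ⟨C u * (C ((Int.castRingHom (ZMod p)) D') * A.map (Int.castRingHom (ZMod p))),
    C u * (C ((Int.castRingHom (ZMod p)) D) * B.map (Int.castRingHom (ZMod p))), ?_⟩
  have h5 : C u * C ((Int.castRingHom (ZMod p)) (D * D')) = 1 := by
    rw [← C_mul, hu, C_1]
  linear_combination (C u) * h2 + h5

theorem norm_p (p : Nat.Primes) : ‖(((p : ℕ) : ℕ) : Kp p)‖ = (((p : ℕ) : ℝ))⁻¹ := by
  have h1 := PadicAlgCl.norm_extends (p : ℕ) (((p : ℕ) : ℚ_[(p : ℕ)]))
  rw [map_natCast] at h1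
  rw [h1]
  exact Padic.norm_p

theorem norm_int (p : Nat.Primes) (D : ℤ) (hD : D ≠ 0) : ∃ m : ℤ,
    ‖((D : ℤ) : Kp p)‖ = ((p : ℕ) : ℝ) ^ m := by
  have h1 := PadicAlgCl.norm_extends (p : ℕ) ((D : ℚ_[(p : ℕ)]))
  rw [map_intCast] at h1
  rw [h1]
  have h2 : (D : ℚ_[(p : ℕ)]) ≠ 0 := by exact_mod_cast hD
  rw [Padic.norm_eq_zpow_neg_valuation h2]
  exact ⟨_, rfl⟩

theorem int_le {K : Type} [NormedField K] [IsUltrametricDist K] (x : K) (hx : IsIntegral ℤ x) :
    ‖x‖ ≤ 1 := by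
  obtain ⟨f, hmon, hfx⟩ := hx
  by_contra h
  rw [not_le] at h
  rcases Nat.eq_zero_or_pos f.natDegree with h0 | h0
  · rw [Polynomial.Monic.natDegree_eq_zero hmon] at h0
    rw [h0, eval₂_one] at hfx
    exact one_ne_zero hfx
  · rw [Polynomial.Monic.as_sum hmon, eval₂_add, eval₂_X_pow, eval₂_finsetSum] at hfx
    have h1 : x ^ f.natDegree = - ∑ i ∈ Finset.range f.natDegree,
        eval₂ (algebraMap ℤ K) x (C (f.coeff i) * X ^ i) := by
      linear_combination hfx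
    have h2 := congrArg norm h1
    rw [norm_neg, norm_pow] at h2
    have h3 : ‖∑ i ∈ Finset.range f.natDegree,
        eval₂ (algebraMap ℤ K) x (C (f.coeff i) * X ^ i)‖ ≤ ‖x‖ ^ (f.natDegree - 1) := by
      refine IsUltrametricDist.norm_sum_le_of_forall_le_of_nonneg (by positivity) ?_
      intro i hi
      rw [Finset.mem_range] at hi
      rw [eval₂_mul, eval₂_C, eval₂_X_pow, norm_mul, norm_pow]
      have h4 : ‖(algebraMap ℤ K) (f.coeff i)‖ ≤ 1 := by
        have := IsUltrametricDist.norm_intCast_le_one K (f.coeff i)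
        simpa using this
      calc ‖(algebraMap ℤ K) (f.coeff i)‖ * ‖x‖ ^ i ≤ 1 * ‖x‖ ^ (f.natDegree - 1) :=
            mul_le_mul h4 (pow_le_pow_right₀ h.le (by omega)) (by positivity) zero_le_one
        _ = _ := one_mul _
    rw [← h2] at h3
    have h5 : ‖x‖ ^ (f.natDegree - 1) < ‖x‖ ^ f.natDegree := pow_lt_pow_right₀ h (by omega)
    exact absurd h3 (not_le.2 h5)

/-- the number field `L` and its elements -/
theorem main_L (L : Type) [Field L] [NumberField L] : ∃ N : ℕ, N ≠ 0 ∧ ∀ p : Nat.Primes,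
    ¬ (p : ℕ) ∣ N → ∀ (lam : L →+* Kp p) (a : L), lam a = 0 ∨ ∃ m : ℤ,
      ‖lam a‖ = ((p : ℕ) : ℝ) ^ m := by
  obtain ⟨α, hα⟩ := Field.exists_primitive_element ℚ L
  have hαalg : IsAlgebraic ℤ α :=
    (IsFractionRing.isAlgebraic_iff ℤ ℚ L).2 (Algebra.IsAlgebraic.isAlgebraic α)
  obtain ⟨d, hd, hint⟩ := hαalg.exists_integral_multiple
  obtain ⟨θ, hθ⟩ : ∃ θ : L, θ = d • α := ⟨_, rfl⟩
  rw [← hθ] at hint
  have hsep : ((minpoly ℤ θ).map (algebraMap ℤ ℚ)).Separable := by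
    rw [← minpoly.isIntegrallyClosed_eq_field_fractions' ℚ hint]
    exact (Algebra.IsAlgebraic.isAlgebraic (R := ℚ) θ).isIntegral |> fun h =>
      (minpoly.irreducible h).separable
  obtain ⟨N, hN, hsq⟩ := sqf _ hsep
  refine ⟨N, hN, fun p hpN lam a => ?_⟩
  have hrep : ∃ (D : ℤ) (G : ℤ[X]), D ≠ 0 ∧ (D : L) * a = aeval θ G := by
    have h1 : a ∈ (IntermediateField.adjoin ℚ {α} : IntermediateField ℚ L) := by
      rw [hα]; exact IntermediateField.mem_top
    have h2 : a ∈ Algebra.adjoin ℚ {α} := by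
      have h3 := IntermediateField.adjoin_simple_toSubalgebra_of_isAlgebraic
        (Algebra.IsAlgebraic.isAlgebraic (R := ℚ) α)
      rw [← h3]
      exact h1
    rw [Algebra.adjoin_singleton_eq_range_aeval] at h2
    obtain ⟨g, hg⟩ := h2
    have hd' : (d : ℚ) ≠ 0 := by exact_mod_cast hd
    obtain ⟨D, G, hD, hG⟩ := clear_den (g.comp (C ((d : ℚ)⁻¹) * X))
    refine ⟨D, G, hD, ?_⟩
    have h4 : aeval θ G = aeval θ (G.map (algebraMap ℤ ℚ)) := by
      rw [aeval_map_algebraMap]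
    rw [h4, hG]
    have h5 : aeval θ (g.comp (C ((d : ℚ)⁻¹) * X)) = a := by
      rw [aeval_comp, map_mul, aeval_C, aeval_X, hθ]
      have h6 : (algebraMap ℚ L) ((d : ℚ)⁻¹) * (d • α) = α := by
        rw [map_inv₀, map_intCast, zsmul_eq_mul, ← mul_assoc, inv_mul_cancel₀, one_mul]
        exact_mod_cast hd
      rw [h6]
      exact hg
    rw [map_zsmul, h5, zsmul_eq_mul]
  obtain ⟨D, G, hD, hDG⟩ := hrep
  by_cases ha : lam a = 0
  · exact Or.inl ha
  · right
    have hmap : aeval (lam θ) G = lam (aeval θ G) :=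
      Polynomial.aeval_algHom_apply lam.toIntAlgHom θ G
    have h1 : ((D : ℤ) : Kp p) * lam a = aeval (lam θ) G := by
      rw [hmap, ← hDG, map_mul, map_intCast]
    have hD' : ((D : ℤ) : Kp p) ≠ 0 := by exact_mod_cast hD
    have h2 : aeval (lam θ) G ≠ 0 := by
      rw [← h1]; exact mul_ne_zero hD' ha
    have hf0 : aeval (lam θ) (minpoly ℤ θ) = 0 := by
      have h5 : aeval (lam θ) (minpoly ℤ θ) = lam (aeval θ (minpoly ℤ θ)) :=
        Polynomial.aeval_algHom_apply lam.toIntAlgHom θ (minpoly ℤ θ)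
      rw [h5, minpoly.aeval, map_zero]
    have hle : ‖lam θ‖ ≤ 1 := by
      refine int_le _ ?_
      exact hint.map (lam.toIntAlgHom)
    obtain ⟨m, hm⟩ := core (p : ℕ) (norm_p p) (lam θ) hle (minpoly ℤ θ) hf0
      (hsq p p.2 hpN) G h2
    obtain ⟨m', hm'⟩ := norm_int p D hD
    have h3 : ‖((D : ℤ) : Kp p)‖ * ‖lam a‖ = ((((p : ℕ) : ℝ))⁻¹) ^ m := by
      rw [← norm_mul, h1]
      exact hm
    rw [hm'] at h3
    have hp0 : (((p : ℕ) : ℝ)) ≠ 0 := by exact_mod_cast p.2.ne_zero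
    refine ⟨-(m : ℤ) - m', ?_⟩
    rw [zpow_sub₀ hp0, zpow_neg, zpow_natCast, ← inv_pow, ← h3]
    field_simp

theorem t_UNR : S_UNR := by
  intro ι _ E _ _
  let Q := AlgebraicClosure ℚ
  let rg : Emb E Q → IntermediateField ℚ Q := fun i =>
    (RingHom.equivRatAlgHom (E i.1) Q i.2).fieldRange
  let L : IntermediateField ℚ Q := ⨆ i, rg i
  have hfin : ∀ i, FiniteDimensional ℚ (rg i) := fun i => by
    have e := (AlgHom.equivFieldRange (RingHom.equivRatAlgHom (E i.1) Q i.2))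
    exact Module.Finite.equiv e.toLinearEquiv
  have hL : FiniteDimensional ℚ L := IntermediateField.finiteDimensional_iSup_of_finite
  have hLn : NumberField L := { to_charZero := inferInstance, to_finiteDimensional := hL }
  obtain ⟨N, hN, hmain⟩ := main_L L
  refine ⟨N, hN, fun p hpN x y => ?_⟩
  obtain ⟨lamb⟩ : Nonempty (Q →+* Kp p) := by
    have : Algebra.IsAlgebraic ℚ (AlgebraicClosure ℚ) := AlgebraicClosure.isAlgebraic ℚ
    exact ⟨(IsAlgClosed.lift (R := ℚ) (S := AlgebraicClosure ℚ) (M := Kp p)).toRingHom⟩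
  obtain ⟨lam, hlam⟩ : ∃ lam : L →+* Kp p, lam = lamb.comp (L.val : L →+* Q) := ⟨_, rfl⟩
  have hrep : ∀ (k : ι) (σ : E k →+* Kp p) (a : E k), ∃ b : L, σ a = lam b := by
    intro k σ a
    have hinj : Function.Injective fun σ' : E k →+* Q => lamb.comp σ' := by
      intro s t hst
      ext z
      exact lamb.injective (RingHom.congr_fun hst z)
    have hbij : Function.Bijective fun σ' : E k →+* Q => lamb.comp σ' := by
      rw [Fintype.bijective_iff_injective_and_card]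
      refine ⟨hinj, ?_⟩
      rw [NumberField.Embeddings.card, NumberField.Embeddings.card]
    obtain ⟨σ', hσ'⟩ := hbij.2 σ
    have hmem : σ' a ∈ L := by
      have h1 : σ' a ∈ rg ⟨k, σ'⟩ := ⟨a, rfl⟩
      exact (le_iSup rg ⟨k, σ'⟩) h1
    refine ⟨⟨σ' a, hmem⟩, ?_⟩
    rw [← hσ', hlam]
    rfl
  have hone : ∀ (k : ι) (σ : E k →+* Kp p) (a : E k), ‖σ a‖ = 0 ∨
      ∃ m : ℤ, ‖σ a‖ = ((p : ℕ) : ℝ) ^ m := by
    intro k σ a
    obtain ⟨b, hb⟩ := hrep k σ a
    rw [hb]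
    rcases hmain p hpN lam b with h | h
    · left; rw [h, norm_zero]
    · right; exact h
  constructor
  · intro i
    unfold vn
    rcases le_total ‖i.2 (x i.1)‖ ‖i.2 (y i.1)‖ with h | h
    · rw [max_eq_right h]; exact hone _ _ _
    · rw [max_eq_left h]; exact hone _ _ _
  · intro i j
    obtain ⟨b1, hb1⟩ := hrep i.1 i.2 (x i.1)
    obtain ⟨b2, hb2⟩ := hrep j.1 j.2 (y j.1)
    obtain ⟨b3, hb3⟩ := hrep j.1 j.2 (x j.1)
    obtain ⟨b4, hb4⟩ := hrep i.1 i.2 (y i.1)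
    have h1 : pl E x y i j = lam (b1 * b2 - b3 * b4) := by
      unfold pl
      rw [hb1, hb2, hb3, hb4]
      simp
    rw [h1]
    exact hmain p hpN lam _

end Pool.Agent.K1H96.DP.Unr
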